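import Pool.Agent.KS6_40.WP.Core

/-!
# The static competitive ratio of WPL trees is linear in the number of keys

From every initial tree one can force the tree in which the keys `n - 2` and `n` are the two
children of `n - 1` and `n - 1` is the last node of the path `1, 2, …, n - 3, n - 1`, with counters
such that alternating accesses to `n` and `n - 2` never cause a rotation: a rotation would bring
the accessed key up, but its parent and its sibling down.  Each of these accesses costs `n - 1`,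
while two of them cost `3` in a suitable static tree.
-/

set_option autoImplicit false

namespace Pool.Agent.Results.MP_037a8f_lc.LinearStaticRatio

open Pool.Agent.R566.WPL Pool.Agent.R566.WPL.BST Pool.Agent.KS6_40.WP

/-- **The static competitive ratio of the WPL tree algorithm on `n` keys is of order `n`.**
(1) For every `n ≥ 3`, every initial tree `T₀` on the keys `1, …, n`, every real
`c < 2 (n - 1) / 3` and every `a` there is an access sequence `σ` with
`cost(T₀, σ) > c · OPT_st(σ) + a`.  (2) For every `n ≥ 1`, all `T₀` and all `σ` one has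
`cost(T₀, σ) ≤ (2 n - 1) · OPT_st(σ)`.  (3) In particular the algorithm is not
`O(1)`-static-competitive. -/
theorem result :
    (∀ n : ℕ, 3 ≤ n → ∀ T₀ : BST, On n T₀ → ∀ c a : ℝ, c < 2 * ((n : ℝ) - 1) / 3 →
      ∃ σ : List ℕ, (∀ x ∈ σ, 1 ≤ x ∧ x ≤ n) ∧
        c * (optStatic n σ : ℝ) + a < (wplCost T₀ σ : ℝ)) ∧
    (∀ n : ℕ, 1 ≤ n → ∀ T₀ : BST, On n T₀ → ∀ σ : List ℕ, (∀ x ∈ σ, 1 ≤ x ∧ x ≤ n) →
      (wplCost T₀ σ : ℝ) ≤ (2 * (n : ℝ) - 1) * (optStatic n σ : ℝ)) ∧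
    ¬ (∃ c : ℝ, ∀ n : ℕ, 1 ≤ n → ∀ T₀ : BST, On n T₀ → ∃ a : ℝ, ∀ σ : List ℕ,
      (∀ x ∈ σ, 1 ≤ x ∧ x ≤ n) → (wplCost T₀ σ : ℝ) ≤ c * (optStatic n σ : ℝ) + a) := by
  have h1 : ∀ n : ℕ, 3 ≤ n → ∀ T₀ : BST, On n T₀ → ∀ c a : ℝ, c < 2 * ((n : ℝ) - 1) / 3 →
      ∃ σ : List ℕ, (∀ x ∈ σ, 1 ≤ x ∧ x ≤ n) ∧
        c * (optStatic n σ : ℝ) + a < (wplCost T₀ σ : ℝ) := by
    intro n hn T₀ hT₀ c₀ a hc₀
    obtain ⟨k, rfl⟩ : ∃ k, n = k + 3 := ⟨n - 3, by omega⟩
    obtain ⟨π, hπ, hcost⟩ := cost_ge 1 k hT₀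
    have hN : (((k + 3 : ℕ) : ℝ) - 1) = (k : ℝ) + 2 := by push_cast; ring
    rw [hN] at hc₀
    obtain ⟨c, hcc, hc0, hc⟩ : ∃ c : ℝ, c₀ ≤ c ∧ 0 ≤ c ∧ c < 2 * ((k : ℝ) + 2) / 3 :=
      ⟨max c₀ 0, le_max_left _ _, le_max_right _ _, max_lt hc₀ (by positivity)⟩
    set P : ℝ := (staticCost (good k) π : ℝ) with hP
    have hδ : 0 < 2 * ((k : ℝ) + 2) - 3 * c := by linarith
    obtain ⟨m, hm⟩ := exists_nat_gt ((c * P + a) / (2 * ((k : ℝ) + 2) - 3 * c))
    rw [div_lt_iff₀ hδ] at hm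
    refine ⟨π ++ blocks k 1 m, fun x hx => ?_, ?_⟩
    · rcases List.mem_append.1 hx with hx | hx
      · exact hπ x hx
      · exact mem_blocks hx
    · have h2 : optStatic (k + 3) (π ++ blocks k 1 m) ≤ staticCost (good k) π + m * 3 := by
        rw [show m * 3 = m * (3 * 1) by ring, ← staticCost_blocks, ← staticCost_append]
        exact Nat.sInf_le (s := {c | ∃ S : BST, On (k + 3) S ∧
          c = staticCost S (π ++ blocks k 1 m)}) ⟨good k, on_good k, rfl⟩
      have h3 : (optStatic (k + 3) (π ++ blocks k 1 m) : ℝ) ≤ P + m * 3 := by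
        rw [hP]
        exact_mod_cast h2
      have h4 : (m : ℝ) * (2 * 1 * (k + 2)) ≤ (wplCost T₀ (π ++ blocks k 1 m) : ℝ) := by
        exact_mod_cast hcost m
      have h5 : c₀ * (optStatic (k + 3) (π ++ blocks k 1 m) : ℝ) ≤ c * (P + m * 3) :=
        (mul_le_mul_of_nonneg_right hcc (Nat.cast_nonneg _)).trans
          (mul_le_mul_of_nonneg_left h3 hc0)
      nlinarith
  refine ⟨h1, fun n hn T₀ hT₀ σ hσ => ?_, ?_⟩
  · have h2 := wplCostFrom_le σ (fun _ => 0) T₀ hT₀ hσ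
    have h3 : (wplCost T₀ σ : ℝ) ≤ (2 * (n : ℝ) - 1) * (σ.length : ℝ) := by
      have h4 : ((2 * n - 1 : ℕ) : ℝ) = 2 * (n : ℝ) - 1 := by
        rw [Nat.cast_sub (by omega)]
        push_cast
        ring
      rw [← h4]
      exact_mod_cast h2
    have h5 : (σ.length : ℝ) ≤ (optStatic n σ : ℝ) := by exact_mod_cast length_le_optStatic σ
    have h6 : (1 : ℝ) ≤ n := by exact_mod_cast hn
    exact h3.trans (mul_le_mul_of_nonneg_left h5 (by linarith))
  · rintro ⟨c, hc⟩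
    obtain ⟨k, hk⟩ := exists_nat_gt (3 * c)
    obtain ⟨a, ha⟩ := hc (k + 3) (by omega) (deep k 1) (on_deep k)
    obtain ⟨σ, hσ, h2⟩ := h1 (k + 3) (by omega) (deep k 1) (on_deep k) c a (by
      push_cast
      have : (0 : ℝ) ≤ k := Nat.cast_nonneg k
      linarith)
    exact absurd (ha σ hσ) (not_le.2 h2)

end Pool.Agent.Results.MP_037a8f_lc.LinearStaticRatio
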